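import Pool.Agent.H.MP_76ae7e_lc.B

set_option autoImplicit false

namespace Pool.Agent.Results.MP_be00aa_lc.Proper

open Pool.Agent.Lib.helper21.PR Pool.Agent.H.MP_fa5791_lc Pool.Agent.H.MP_fa2eca_lc Filter Set Encodable Denumerable
open Function Nat.Partrec Nat.Partrec.Code Pool.Agent.H.MP_3eaa21_lc Pool.Agent.H.MP_f36693_lc Pool.Agent.H.MP_76ae7e_lc

attribute [local irreducible] Primrec Computable

def Sig3 (p : ℕ → Prop) : Prop :=
  ∃ R : ℕ × ℕ × ℕ × ℕ → Prop, ComputablePred R ∧ ∀ a, p a ↔ ∃ x, ∀ y, ∃ z, R (a, x, y, z)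

def Pi3 (p : ℕ → Prop) : Prop := Sig3 fun a => ¬ p a

/-- atomic diagram of the pure set `U`: codes of true equations and inequations between its elements -/
def Dg (U : Set ℕ) (c : ℕ) : Prop := c.unpair.2.unpair.1 ∈ U ∧ c.unpair.2.unpair.2 ∈ U ∧
  (c.unpair.1 = 0 ∧ c.unpair.2.unpair.1 = c.unpair.2.unpair.2 ∨ c.unpair.1 = 1 ∧ c.unpair.2.unpair.1 ≠ c.unpair.2.unpair.2)

open Classical in
/-- program `e` computes the characteristic function of the atomic diagram of `U` -/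
def Idx (e : ℕ) (U : Set ℕ) : Prop := ∀ c, (if Dg U c then 1 else 0) ∈ (ofNat Code e).eval c

/-- the isomorphism problem -/
def E (K : Set ℕ → Prop) (c : ℕ) : Prop :=
  ∃ U V, Idx c.unpair.1 U ∧ Idx c.unpair.2 V ∧ K U ∧ K V ∧ Nonempty (U ≃ V)

theorem sig3 {p : ℕ → Prop} : Sig3 p ↔ RI (J (J O)) p := by
  refine ⟨fun ⟨R, a, b⟩ => ?_, fun h => ?_⟩
  · obtain ⟨Q, q1, q2⟩ := cp' (Y := O) a
    obtain ⟨A, a1, a2⟩ : ∃ A : ℕ × ℕ × ℕ → Bool, CI (J O) A ∧ ∀ z, A z = cd (∃ w, Q (z.1, z.2.1, z.2.2, w) = true) :=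
      ⟨_, RI.jump (RI.un (by fun_prop)), fun _ => rfl⟩
    obtain ⟨B, b1, b2⟩ : ∃ B : ℕ × ℕ → Bool, CI (J (J O)) B ∧ ∀ z, B z = cd (∃ w, A (z.1, z.2, w) = false) :=
      ⟨_, RI.jump (RI.un (by fun_prop)), fun _ => rfl⟩
    exact RI.of_eq (p := fun a => ∃ x, B (a, x) = false) (RI.un (by fun_prop)) fun a => by
      simp [b, b2, a2, q2, ← Bool.not_eq_true]
  obtain ⟨T, a, b⟩ := sig2 h
  obtain ⟨S, c, d⟩ := sig2 a
  obtain ⟨e, f⟩ := re_code (r_pw (ri_re c)).re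
  exact ⟨fun z => (evaln z.2.2.2 e (encode ((z.1, z.2.1), z.2.2.1))).isSome = true, cpr (ci_prim (by fun_prop)),
    fun a => by simp only [b, d, not_exists, Classical.not_not, f, Part.dom_iff_mem, evaln_complete, not_forall,
      Option.isSome_iff_exists, Option.mem_def, exists_comm (p := fun x y => evaln y e _ = some x)]⟩

theorem simple (Y : ℕ → Bool) : ∃ S : ℕ → Prop, RI Y S ∧ S 0 ∧ {x | ¬ S x}.Infinite ∧
    ∀ p : ℕ → Prop, RI Y p → {x | p x}.Infinite → ∃ x, p x ∧ S x := by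
  classical
  have j := J_ri Y
  generalize e : (fun p => J Y p = true) = W at j
  obtain ⟨N, a, b, -, c⟩ := RI.norm (Y := Y) (p := fun z : ℕ × ℕ => 2 * z.1 < z.2 ∧ W (Nat.pair z.1 z.2))
    (RI.un (by fun_prop))
  have y := ci_self Y
  obtain ⟨B, b1, b2⟩ : ∃ B : ℕ → ℕ → Bool, CI Y (fun z : ℕ × ℕ => B z.1 z.2) ∧ ∀ e s, B e s =
    N ((e, s.unpair.1), pre Y s.unpair.2.unpair.1) s.unpair.2.unpair.2 := ⟨_, by fun_prop, fun _ _ => rfl⟩
  have b3 : ∀ e s, B e s = true → 2 * e < s.unpair.1 ∧ W (Nat.pair e s.unpair.1) := fun e s h => by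
    rw [b2] at h
    exact b _ _ _ h
  obtain ⟨S, s1, s2⟩ : ∃ S : ℕ → Prop, RI Y S ∧ ∀ x, S x ↔ x = 0 ∨ ∃ e s, s.unpair.1 = x ∧ B e s = true ∧
    ∀ t < s, B e t = false := ⟨_, RI.un (by fun_prop), fun _ => .rfl⟩
  refine ⟨S, s1, (s2 _).2 (.inl rfl), fun h => ?_, fun p h k => ?_⟩
  · obtain ⟨A, hA⟩ : ∃ A : Finset ℕ, ∀ x, x ∈ A ↔ ¬ S x := ⟨h.toFinset, by simp⟩
    have := Finset.card_le_card (s := Finset.range (2 * (A.card + 1) + 1)) (t := insert 0 (A ∪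
      (Finset.range (A.card + 1)).image fun e => if k : ∃ s, B e s then (Nat.find k).unpair.1 else 0))
      fun x m => by
        simp only [Finset.mem_insert, Finset.mem_union, hA, Finset.mem_image, Finset.mem_range] at m ⊢
        by_contra o
        push Not at o
        obtain ⟨e, s, u, q, r⟩ := ((s2 _).1 o.2.1).resolve_left o.1
        have := (b3 _ _ q).1
        exact o.2.2 e (by omega) (by rw [dif_pos ⟨s, q⟩, (Nat.find_eq_iff _).2 ⟨q, by simpa using r⟩, u])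
    have := this.trans ((Finset.card_insert_le ..).trans (Nat.succ_le_succ ((Finset.card_union_le ..).trans
      (Nat.add_le_add_left Finset.card_image_le _))))
    simp only [Finset.card_range] at this
    omega
  obtain ⟨i, h⟩ := jump_one h
  obtain ⟨x, k, l⟩ := k.exists_gt (2 * i)
  obtain ⟨n, t, m⟩ := c (i, x) ⟨l, e ▸ (h x).1 k⟩
  have : ∃ s, B i s := ⟨Nat.pair x (Nat.pair n t), by simpa [b2]⟩
  have q := (b3 _ _ (Nat.find_spec this)).2
  rw [← e] at q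
  exact ⟨_, (h _).2 q, (s2 _).2 (.inr ⟨i, _, rfl, Nat.find_spec this, fun t o => by simpa using Nat.find_min this o⟩)⟩

theorem size : ∃ s : ℕ → ℕ, CI (J (J O)) s ∧ (∀ a U, Idx a U → s a = U.ncard) ∧ ∀ a, s a ≠ 0 → ∃ U, Idx a U := by
  classical
  obtain ⟨G, gr, gq⟩ : ∃ G : ℕ × ℕ × ℕ → Prop, RE G ∧ ∀ e x b, G (e, x, b) ↔ b ∈ (ofNat Code e).eval x :=
    ⟨fun z => z.2.2 ∈ (ofNat Code z.1).eval z.2.1, (r_comp (f := fun z : ℕ × ℕ × ℕ => ((ofNat Code z.1, z.2.1), z.2.2))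
      (r_graph eval_part) (by fun_prop)).of_eq (by simp) |>.re |> RE.un, fun _ _ _ => .rfl⟩
  obtain ⟨H, h1, h2⟩ : ∃ H : ℕ × ℕ × ℕ → Bool, CI (J O) H ∧ ∀ z, H z = cd (G z) :=
    ⟨_, RI.jump (i_re (r_pw gr)).un, fun _ => rfl⟩
  obtain ⟨T, t1, t2⟩ : ∃ T : ℕ × ℕ → Bool, CI (J O) T ∧ ∀ z, T z = cd (∃ x, z.2 ≤ x ∧
    G (z.1, Nat.pair 0 (Nat.pair x x), 1)) := ⟨_, RI.jump (RI.un (by fun_prop)), fun _ => rfl⟩
  obtain ⟨u, hu⟩ : ∃ u : ℕ → Set ℕ, ∀ a x, x ∈ u a ↔ H (a, Nat.pair 0 (Nat.pair x x), 1) = true :=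
    ⟨fun a => {x | _}, fun _ _ => .rfl⟩
  have e : ∀ a U, Idx a U → u a = U := fun a U h => Set.ext fun x => by
    simp [hu, h2, gq, Part.eq_some_iff.2 (h _), Dg]
  obtain ⟨V, v1, v2⟩ : ∃ V : ℕ → Bool, CI (J (J O)) V ∧ ∀ a, V a = cd (¬ Idx a (u a)) := ⟨_, RI.jump (RI.of_eq
    (p := fun a => ∃ c : ℕ, H (a, c, if H (a, Nat.pair 0 (Nat.pair c.unpair.2.unpair.1 c.unpair.2.unpair.1), 1) = true ∧
      H (a, Nat.pair 0 (Nat.pair c.unpair.2.unpair.2 c.unpair.2.unpair.2), 1) = true ∧ (c.unpair.1 = 0 ∧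
        c.unpair.2.unpair.1 = c.unpair.2.unpair.2 ∨ c.unpair.1 = 1 ∧ c.unpair.2.unpair.1 ≠ c.unpair.2.unpair.2)
          then 1 else 0) = false) (RI.un (by fun_prop)) fun a => by
      simp only [← hu]
      simp only [Idx, Dg, h2, gq, not_forall, ← Bool.not_eq_true, cd_true]
      grind), fun _ => rfl⟩
  obtain ⟨I, i1, i2⟩ : ∃ I : ℕ → Bool, CI (J (J O)) I ∧ ∀ a, I a = cd (∃ m, T (a, m) = false) :=
    ⟨_, RI.jump (RI.un (by fun_prop)), fun _ => rfl⟩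
  replace h1 := h1.trans (ci_J _)
  replace t1 := t1.trans (ci_J _)
  have t3 : ∀ a m, T (a, m) = false ↔ u a ⊆ Iio m := fun a m => by
    simp [t2, ← Bool.not_eq_true, subset_def, hu, h2]; grind
  refine ⟨fun a => if V a then 0 else (u a).ncard, .mk (R := fun a n => (V a = true ∨ I a = false) ∧ n = 0 ∨
    V a = false ∧ ∃ m, T (a, m) = false ∧ n = ((Finset.range m).filter fun x =>
      H (a, Nat.pair 0 (Nat.pair x x), 1) = true).card) (by fun_prop) fun a n => ?_, fun a U h => by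
        simp [v2, e a U h, h], fun a h => ⟨u a, by_contra fun k => by simp [v2, k] at h⟩⟩
  have f : ∀ m, u a ⊆ Iio m → ((Finset.range m).filter fun x => H (a, Nat.pair 0 (Nat.pair x x), 1) = true).card =
      (u a).ncard := fun m h => by
    rw [← ncard_coe_finset]
    exact congrArg _ (by ext x; simpa [hu] using fun k => h ((hu ..).2 k))
  have g : I a = false → (u a).ncard = 0 := fun h => Infinite.ncard fun k => k.bddAbove.elim fun m k => by
    rw [i2, ← Bool.not_eq_true, cd_true] at h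
    exact h ⟨m + 1, (t3 ..).2 fun x o => Nat.lt_succ_of_le (k o)⟩
  have := i2 a
  cases k : I a
  · grind
  obtain ⟨m, k⟩ := cd_true.1 (this ▸ k)
  cases V a <;> grind

theorem result : ∃ K : Set ℕ → Prop, (∀ U V : Set ℕ, Nonempty (U ≃ V) → K U → K V) ∧ Pi3 (E K) ∧ ¬ Sig3 (E K) ∧
    ¬ ∀ P, Pi3 P → P ≤₀ E K := by
  classical
  obtain ⟨S, s1, s0, s2, s3⟩ := simple (J (J O))
  obtain ⟨s, z1, z2, z3⟩ := size
  have e : ∀ c, E (fun U => ¬ S U.ncard) c ↔ s c.unpair.1 = s c.unpair.2 ∧ ¬ S (s c.unpair.1) := fun c =>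
    ⟨fun ⟨U, V, a, b, k, _, ⟨f⟩⟩ => by simp [z2 _ _ a, z2 _ _ b, k, ← ncard_congr' f], fun ⟨a, b⟩ => by
      have k : s c.unpair.1 ≠ 0 := fun k => b (k ▸ s0)
      obtain ⟨U, f⟩ := z3 _ k
      obtain ⟨V, g⟩ := z3 _ (a ▸ k)
      rw [z2 _ _ f] at a b k
      rw [z2 _ _ g] at a
      have := (finite_of_ncard_ne_zero k).to_subtype
      have := (finite_of_ncard_ne_zero (a ▸ k)).to_subtype
      exact ⟨U, V, f, g, b, show ¬ S V.ncard from a ▸ b, Finite.card_eq.1 a⟩⟩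
  refine ⟨fun U => ¬ S U.ncard, fun U V ⟨f⟩ => by simp [ncard_congr' f], sig3.2 (RI.of_eq (p := fun c : ℕ =>
    s c.unpair.1 ≠ s c.unpair.2 ∨ S (s c.unpair.1)) (RI.un (by fun_prop)) (by grind)), fun h => ?_, fun h => ?_⟩
  · obtain ⟨c, k⟩ := exists_code.1 (Partrec.nat_iff.1 (Primrec.to_comp (f := fun z : ℕ =>
      if Dg (Iio z.unpair.1) z.unpair.2 then 1 else 0) (by simp only [Dg, mem_Iio]; fun_prop)).partrec)
    have l : ∀ n, s (encode (curry c n)) = n := fun n => (z2 _ (Iio n) fun x => by simp [eval_curry, k]).trans (by simp)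
    obtain ⟨x, a, b⟩ := s3 _ ((sig3.1 h).comp (f := fun n => Nat.pair (encode (curry c n)) (encode (curry c n))) (by
      have : Primrec (curry c) := primrec₂_curry.comp (.const c) .id
      fun_prop)) (by simpa [e, l] using s2)
    simp [e, l, b] at a
  obtain ⟨f, a, b⟩ := h (fun x => ¬ J (J (J O)) (Nat.pair x.unpair.1 x)) (sig3.2 (((J_ri _).comp
    (f := fun x : ℕ => Nat.pair x.unpair.1 x) (by fun_prop)).of_eq (by simp)))
  replace a := Computable.ci (Y := J (J O)) a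
  obtain ⟨g, g1, g2⟩ : ∃ g : ℕ → ℕ, CI (J (J O)) g ∧ ∀ x, S (g x) ↔ J (J (J O)) (Nat.pair x.unpair.1 x) :=
    ⟨fun x => if s (f x).unpair.1 = s (f x).unpair.2 then s (f x).unpair.1 else 0, by fun_prop, by grind⟩
  obtain ⟨i, k⟩ := jump_one (Y := J (J O)) (p := fun x : ℕ => ∃ j < (ofNat (List ℕ) x.unpair.2).length,
    (ofNat (List ℕ) x.unpair.2).getD j 0 = g x) (i_ci (by fun_prop)).un
  obtain ⟨F, f1, f0, f2⟩ : ∃ F : ℕ → List ℕ, CI (J (J O)) F ∧ F 0 = [] ∧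
    ∀ n, F (n + 1) = g (Nat.pair i (encode (F n))) :: F n :=
      ⟨fun n => Nat.rec [] (fun _ l => g (Nat.pair i (encode l)) :: l) n, by fun_prop, rfl, fun _ => rfl⟩
  have l : ∀ l : List ℕ, S (g (Nat.pair i (encode l))) ↔ g (Nat.pair i (encode l)) ∈ l := fun l => by
    have := k (Nat.pair i (encode l))
    rw [encode_nat] at this
    rw [g2, Nat.unpair_pair, ← this]
    simp only [Nat.unpair_pair, ofNat_encode, List.mem_iff_getElem]
    exact exists_congr fun j => ⟨fun ⟨a, b⟩ => ⟨a, by simpa [a] using b⟩, fun ⟨a, b⟩ => ⟨a, by simpa [a] using b⟩⟩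
  have m : ∀ n, ∀ x ∈ F n, ¬ S x := fun n => n.rec (by simp [f0]) (by grind)
  have o : ∀ n, ∀ j < n, g (Nat.pair i (encode (F j))) ∈ F n := fun n => n.rec (by simp) (by grind)
  obtain ⟨_, ⟨n, rfl⟩, q⟩ := s3 (fun x => ∃ n, g (Nat.pair i (encode (F n))) = x) (RI.un (by fun_prop))
    (infinite_range_of_injective (Function.Injective.of_lt_imp_ne (by grind)))
  exact m _ _ (o _ n n.lt_succ_self) q

end Pool.Agent.Results.MP_be00aa_lc.Proper
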